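import Pool.Agent.Lib.Helper67.ET.Core

set_option autoImplicit false

/-!
Asymptotic form of the cube lemma.
-/

namespace Pool.Agent.Helper67.ET

open Filter Asymptotics

theorem eventually_log_le {η : ℝ} (hη : 0 < η) :
    ∀ᶠ N : ℕ in atTop, ((Nat.log 2 N : ℝ) + 1) ≤ (N : ℝ) ^ η := by
  have h1 : ∀ᶠ x : ℝ in atTop, Real.log x ≤ (Real.log 2 / 2) * x ^ η := by
    have := (isLittleO_log_rpow_atTop hη).def (c := Real.log 2 / 2) (by positivity)
    filter_upwards [this, eventually_ge_atTop (1 : ℝ)] with x hx hx1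
    rw [Real.norm_eq_abs, Real.norm_eq_abs, abs_of_nonneg (Real.log_nonneg hx1),
      abs_of_nonneg (by positivity)] at hx
    exact hx
  have h2 : ∀ᶠ x : ℝ in atTop, (2 : ℝ) ≤ x ^ η :=
    (tendsto_rpow_atTop hη).eventually_ge_atTop 2
  filter_upwards [tendsto_natCast_atTop_atTop.eventually (h1.and h2)] with N hN
  have h3 := Real.natLog_le_logb N 2
  have h4 : Real.logb (2 : ℕ) (N : ℝ) = Real.log N / Real.log 2 := by
    simp [Real.logb]
  rw [h4] at h3
  have h5 : 0 < Real.log 2 := Real.log_pos (by norm_num)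
  have h6 : Real.log N / Real.log 2 ≤ (1 / 2) * (N : ℝ) ^ η := by
    rw [div_le_iff₀ h5]
    have := hN.1
    linarith
  have := hN.2
  linarith

theorem eventually_bound (M : ℕ) {ε δ c : ℝ} (hε : 0 ≤ ε) (h : M * ε < δ) :
    ∀ᶠ N : ℕ in atTop, ∀ K : ℕ, (K : ℝ) ≤ c * (N : ℝ) ^ ε →
      ((((Nat.log 2 N + 1) * (5 * K + 9)) ^ M : ℕ) : ℝ) < (N : ℝ) ^ δ := by
  set η : ℝ := (δ - M * ε) / (2 * (M + 1)) with hη
  have hM : (0 : ℝ) ≤ M := Nat.cast_nonneg M
  have hηpos : 0 < η := by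
    rw [hη]; apply div_pos <;> linarith
  have hexp : M * (ε + 2 * η) < δ := by
    have h1 : 2 * (M + 1) * η = δ - M * ε := by
      rw [hη]; field_simp
    nlinarith
  have h2 : ∀ᶠ x : ℝ in atTop, 5 * c + 9 ≤ x ^ η :=
    (tendsto_rpow_atTop hηpos).eventually_ge_atTop _
  filter_upwards [eventually_log_le hηpos, tendsto_natCast_atTop_atTop.eventually h2,
    eventually_ge_atTop 2] with N h3 h4 h5 K hK
  have hN1 : (1 : ℝ) < N := by exact_mod_cast h5
  have hN0 : (0 : ℝ) < N := by linarith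
  have h6 : (1 : ℝ) ≤ (N : ℝ) ^ ε := Real.one_le_rpow hN1.le hε
  have h7 : (5 * (K : ℝ) + 9) ≤ (N : ℝ) ^ (η + ε) := by
    rw [Real.rpow_add hN0]
    have h8 : 5 * (K : ℝ) + 9 ≤ (5 * c + 9) * (N : ℝ) ^ ε := by nlinarith
    refine h8.trans ?_
    exact mul_le_mul_of_nonneg_right h4 (by positivity)
  have h8 : ((Nat.log 2 N : ℝ) + 1) * (5 * (K : ℝ) + 9) ≤ (N : ℝ) ^ (ε + 2 * η) := by
    have : ε + 2 * η = η + (η + ε) := by ring
    rw [this, Real.rpow_add hN0]
    exact mul_le_mul h3 h7 (by positivity) (by positivity)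
  push_cast
  calc (((Nat.log 2 N : ℝ) + 1) * (5 * (K : ℝ) + 9)) ^ M
      ≤ ((N : ℝ) ^ (ε + 2 * η)) ^ M := pow_le_pow_left₀ (by positivity) h8 M
    _ = (N : ℝ) ^ (M * (ε + 2 * η)) := by
        rw [← Real.rpow_natCast, ← Real.rpow_mul hN0.le]; ring_nf
    _ < (N : ℝ) ^ δ := Real.rpow_lt_rpow_of_exponent_lt hN1 hexp

/-- If `A` has no proper `M`-cube and complexity `≤ K n` for `n ≤ 5 N`, with `K ≤ c N ^ ε` and `N`
large, then `A` has fewer than `N ^ δ` elements below `N`, for every `δ > M ε`. -/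
theorem count_lt_of_no_cube {A : Set ℕ} {M : ℕ}
    (hno : ∀ (a : ℕ) (ds : List ℕ), ds.length = M → Proper ds → ¬ CubeIn A ds a)
    {ε δ c : ℝ} (hε : 0 ≤ ε) (h : M * ε < δ) :
    ∀ᶠ N : ℕ in atTop, ∀ K : ℕ, (K : ℝ) ≤ c * (N : ℝ) ^ ε →
      (∀ n : ℕ, 1 ≤ n → n ≤ 5 * N → cx A n ≤ K * n) →
      ((A ∩ Set.Iio N).ncard : ℝ) < (N : ℝ) ^ δ := by
  filter_upwards [eventually_bound M (c := c) hε h] with N hN K hK hcx
  refine lt_of_le_of_lt ?_ (hN K hK)
  by_contra hlt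
  push Not at hlt
  have hle : ((Nat.log 2 N + 1) * (5 * K + 9)) ^ M ≤ (A ∩ Set.Iio N).ncard := by
    exact_mod_cast hlt.le
  obtain ⟨a, ds, h3, h4, h5⟩ := exists_cube (A := A) (N := N) (K := K) (M := M)
    (fun n hn1 hnN => hcx (5 * n) (by omega) (by omega)) hle
  exact hno a ds h3 h4 h5

/-- A bounded unordered representation function excludes large proper cubes. -/
theorem no_cube_of_bounded {A : Set ℕ} {h C : ℕ} (hh : 2 ≤ h)
    (hC : ∀ n, Set.ncard {s : Multiset ℕ | Multiset.card s = h ∧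
      (∀ a ∈ s, a ∈ A) ∧ s.sum = n} ≤ C) :
    ∀ (a : ℕ) (ds : List ℕ), ds.length = C + 1 → Proper ds → ¬ CubeIn A ds a := by
  intro a ds hl hp hc
  obtain ⟨n, hn⟩ := unordered_reps hp hc hh
  have h1 := hC n
  rw [hl, pow_succ] at hn
  have h2 : C < 2 ^ C := Nat.lt_two_pow_self
  omega

/-- Passing from `n ^ (1 + ε)` to a bound at all scales. -/
theorem scale_of_eventually {A : Set ℕ} {ε ε' : ℝ} (hε : 0 < ε) (hlt : ε < ε')
    (hA : ∀ᶠ n : ℕ in atTop, (cx A n : ℝ) ≤ (n : ℝ) ^ (1 + ε)) :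
    ∀ᶠ N : ℕ in atTop, ∀ n : ℕ, 1 ≤ n → n ≤ N → (cx A n : ℝ) ≤ n * (N : ℝ) ^ ε' := by
  obtain ⟨n0, hn0⟩ := eventually_atTop.mp hA
  -- a bound for the small lengths
  obtain ⟨C0, hC0⟩ : ∃ C0 : ℝ, ∀ n < n0, (cx A n : ℝ) ≤ C0 := by
    refine ⟨∑ n ∈ Finset.range n0, (cx A n : ℝ), fun n hn => ?_⟩
    exact Finset.single_le_sum (f := fun n => (cx A n : ℝ)) (fun i _ => Nat.cast_nonneg _)
      (Finset.mem_range.mpr hn)
  have h2 : ∀ᶠ x : ℝ in atTop, C0 ≤ x ^ ε' :=
    (tendsto_rpow_atTop (hε.trans hlt)).eventually_ge_atTop _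
  filter_upwards [tendsto_natCast_atTop_atTop.eventually h2, eventually_ge_atTop 1]
    with N hN hN1 n hn hnN
  have hn' : (1 : ℝ) ≤ n := by exact_mod_cast hn
  have hnN' : (n : ℝ) ≤ N := by exact_mod_cast hnN
  have hN1' : (1 : ℝ) ≤ N := by exact_mod_cast hN1
  by_cases hlt' : n < n0
  · have h3 := hC0 n hlt'
    have h4 : (0 : ℝ) ≤ (N : ℝ) ^ ε' := by positivity
    nlinarith
  · push Not at hlt'
    refine (hn0 n hlt').trans ?_
    rw [Real.rpow_add (by linarith), Real.rpow_one]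
    apply mul_le_mul_of_nonneg_left _ (by linarith)
    calc (n : ℝ) ^ ε ≤ (N : ℝ) ^ ε := Real.rpow_le_rpow (by linarith) hnN' hε.le
      _ ≤ (N : ℝ) ^ ε' := Real.rpow_le_rpow_of_exponent_le hN1' hlt.le

/-- The set of multisets of `h` elements of `A`, all below `N`, has at most `A(N) ^ h` elements:
an asymptotic basis of order `g` has at least about `N ^ (1 / g)` elements below `N`. -/
theorem basis_count {A : Set ℕ} {g N0 : ℕ}
    (hA : ∀ n, N0 ≤ n → ∃ s : Multiset ℕ, Multiset.card s = g ∧ (∀ a ∈ s, a ∈ A) ∧ s.sum = n)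
    (N : ℕ) : N ≤ N0 + (A ∩ Set.Iio N).ncard ^ g := by
  classical
  have hfin : (A ∩ Set.Iio N).Finite := (Set.finite_Iio N).inter_of_right A
  set S := hfin.toFinset with hS
  rw [Set.ncard_eq_toFinset_card _ hfin, ← hS]
  have h1 : Finset.Ico N0 N ⊆ (Fintype.piFinset (fun _ : Fin g => S)).image (fun f => ∑ i, f i) := by
    intro n hn
    rw [Finset.mem_Ico] at hn
    obtain ⟨s, hs1, hs2, hs3⟩ := hA n hn.1
    rw [Finset.mem_image]
    have hl : s.toList.length = g := by rw [Multiset.length_toList, hs1]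
    refine ⟨fun i => s.toList.get (i.cast hl.symm), ?_, ?_⟩
    · rw [Fintype.mem_piFinset]
      intro i
      have hm : s.toList.get (i.cast hl.symm) ∈ s := by
        rw [← Multiset.mem_toList]; exact List.get_mem _ _
      rw [hS, Set.Finite.mem_toFinset]
      refine ⟨hs2 _ hm, ?_⟩
      have : s.toList.get (i.cast hl.symm) ≤ s.sum :=
        Multiset.single_le_sum (fun _ _ => Nat.zero_le _) _ hm
      simp only [Set.mem_Iio]
      omega
    · rw [← hs3]
      have h2 : s.sum = s.toList.sum := by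
        conv_lhs => rw [← Multiset.coe_toList s]
        exact Multiset.sum_coe _
      rw [h2, ← Fin.sum_univ_getElem]
      subst hl
      rfl
  have h2 := Finset.card_le_card h1
  rw [Nat.card_Ico] at h2
  have h3 := h2.trans Finset.card_image_le
  rw [Fintype.card_piFinset] at h3
  simp only [Finset.prod_const, Finset.card_univ, Fintype.card_fin] at h3
  omega

end Pool.Agent.Helper67.ET
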