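import Pool.Agent.Lib.Helper67.ET.Asym

set_option autoImplicit false

/-!
# A counterexample to the strong Erdős–Turán conjecture has polynomially superlinear complexity

`patternCount A n` is the factor complexity of the indicator sequence of `A`.  If `a_n ≤ C n²` and
`r_A ≤ r`, then for every `ε < 1 / (2 ⌊log₂ r⌋ + 2)` and all large `N` some `1 ≤ n ≤ N` has
`patternCount A n > n N ^ ε`.
-/

namespace Pool.Agent.Helper67.ET.ComplexityLowerBound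

open Filter Pool.Agent.Helper67.ET

/-- The number of distinct patterns `A ∩ [t, t + n)`, `t = 0, 1, 2, …`, up to translation:
the factor complexity of the indicator sequence of `A`. -/
noncomputable def patternCount (A : Set ℕ) (n : ℕ) : ℕ :=
  Set.ncard {W : Set ℕ | ∃ t : ℕ, W = {i : ℕ | i < n ∧ t + i ∈ A}}

theorem result (A : Set ℕ) (hA : A.Infinite) (C : ℝ)
    (hC : ∀ n : ℕ, (Nat.nth (· ∈ A) n : ℝ) ≤ C * ((n : ℝ) + 1) ^ 2)
    (r : ℕ) (hr : ∀ n : ℕ, Set.ncard {p : ℕ × ℕ | p.1 ∈ A ∧ p.2 ∈ A ∧ p.1 + p.2 = n} ≤ r)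
    (ε : ℝ) (hε : ε < 1 / (2 * (Nat.log 2 r : ℝ) + 2)) :
    ∀ᶠ N : ℕ in atTop, ∃ n : ℕ, 1 ≤ n ∧ n ≤ N ∧
      (n : ℝ) * (N : ℝ) ^ ε < (patternCount A n : ℝ) := by
  classical
  set M : ℕ := Nat.log 2 r + 1 with hM
  have hMpos : (0 : ℝ) < M := by rw [hM]; positivity
  have hno : ∀ (a : ℕ) (ds : List ℕ), ds.length = M → Proper ds → ¬ CubeIn A ds a := by
    intro a ds hl hp hc
    have h1 := ordered_reps hp hc
    rw [hl] at h1
    have h2 := hr (a + a + ds.sum)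
    have h3 : r < 2 ^ M := Nat.lt_pow_succ_log_self (by norm_num) r
    omega
  -- replace `ε` by a nonnegative exponent
  set ε₀ : ℝ := max ε 0 with hε₀
  have hε₀0 : 0 ≤ ε₀ := le_max_right _ _
  have hMe : M * ε₀ < 1 / 2 := by
    have h1 : ε₀ < 1 / (2 * (Nat.log 2 r : ℝ) + 2) := max_lt hε (by positivity)
    have h2 : (2 * (Nat.log 2 r : ℝ) + 2) = 2 * M := by rw [hM]; push_cast; ring
    rw [h2, lt_div_iff₀ (by positivity)] at h1
    linarith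
  set δ : ℝ := (M * ε₀ + 1 / 2) / 2 with hδ
  have hδ1 : M * ε₀ < δ := by rw [hδ]; linarith
  have hδ2 : δ < 1 / 2 := by rw [hδ]; linarith
  have hδ0 : 0 ≤ δ := by rw [hδ]; positivity
  have hmain := count_lt_of_no_cube hno (c := 10 ^ ε₀ + 1) hε₀0 hδ1
  -- growth of `A`
  have hinf : (Set.ofPred (· ∈ A)).Infinite := hA
  have hgrow : ∀ N : ℕ, (N : ℝ) ≤ C * (((A ∩ Set.Iio N).ncard : ℝ) + 1) ^ 2 := by
    intro N
    have h1 : N ≤ Nat.nth (· ∈ A) (Nat.count (· ∈ A) N) := Nat.le_nth_count hinf N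
    have h2 : (A ∩ Set.Iio N).ncard = Nat.count (· ∈ A) N := by
      rw [Nat.count_eq_card_filter_range, ← Set.ncard_coe_finset]
      congr 1
      ext x
      simp [and_comm]
    rw [h2]
    refine le_trans ?_ (hC _)
    exact_mod_cast h1
  have hbig : ∀ᶠ N : ℕ in atTop, C * 4 * (N : ℝ) ^ (2 * δ) < N := by
    have h1 : ∀ᶠ x : ℝ in atTop, C * 4 < x ^ (1 - 2 * δ) :=
      (tendsto_rpow_atTop (by linarith)).eventually_gt_atTop _
    filter_upwards [tendsto_natCast_atTop_atTop.eventually h1, eventually_ge_atTop 1] with N h2 h3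
    have h4 : (1 : ℝ) ≤ N := by exact_mod_cast h3
    have h5 : (N : ℝ) = (N : ℝ) ^ (1 - 2 * δ) * (N : ℝ) ^ (2 * δ) := by
      rw [← Real.rpow_add (by linarith)]; simp
    have h6 : (0 : ℝ) < (N : ℝ) ^ (2 * δ) := by positivity
    calc C * 4 * (N : ℝ) ^ (2 * δ) < (N : ℝ) ^ (1 - 2 * δ) * (N : ℝ) ^ (2 * δ) :=
          mul_lt_mul_of_pos_right h2 h6
      _ = N := h5.symm
  -- `C` is nonnegative
  have hC0 : 0 ≤ C := by
    have := hC 0
    have h1 : (0 : ℝ) ≤ (Nat.nth (· ∈ A) 0 : ℝ) := Nat.cast_nonneg _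
    simp only [Nat.cast_zero, zero_add, one_pow, mul_one] at this
    linarith
  have hdiv : Tendsto (fun N : ℕ => N / 5) atTop atTop :=
    Nat.tendsto_div_const_atTop (by norm_num)
  filter_upwards [hdiv.eventually (hmain.and (hbig.and (eventually_ge_atTop 1))),
    eventually_ge_atTop 1] with N hN hN1
  obtain ⟨h1, h2, h3⟩ := hN
  by_contra hcon
  push Not at hcon
  set L : ℕ := N / 5 with hL
  have hNL : N ≤ 10 * L := by omega
  have hNL' : (N : ℝ) ≤ 10 * L := by exact_mod_cast hNL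
  have hLR : (1 : ℝ) ≤ L := by exact_mod_cast h3
  have hNR : (1 : ℝ) ≤ N := by exact_mod_cast hN1
  have hcount := h1 ⌈(N : ℝ) ^ ε₀⌉₊ (by
    have h4 : ((⌈(N : ℝ) ^ ε₀⌉₊ : ℕ) : ℝ) < (N : ℝ) ^ ε₀ + 1 := Nat.ceil_lt_add_one (by positivity)
    have h5 : (N : ℝ) ^ ε₀ ≤ (10 * (L : ℝ)) ^ ε₀ :=
      Real.rpow_le_rpow (by linarith) hNL' hε₀0
    rw [Real.mul_rpow (by norm_num) (by linarith)] at h5
    have h6 : (1 : ℝ) ≤ (L : ℝ) ^ ε₀ := Real.one_le_rpow hLR hε₀0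
    nlinarith) (by
    intro n hn1 hn2
    have h4 := hcon n hn1 (by omega)
    have h5 : (N : ℝ) ^ ε ≤ (N : ℝ) ^ ε₀ :=
      Real.rpow_le_rpow_of_exponent_le hNR (le_max_left _ _)
    have h6 : (N : ℝ) ^ ε₀ ≤ ⌈(N : ℝ) ^ ε₀⌉₊ := Nat.le_ceil _
    have h7 : (cx A n : ℝ) ≤ (⌈(N : ℝ) ^ ε₀⌉₊ : ℝ) * n := by
      have h8 : (cx A n : ℝ) ≤ n * (N : ℝ) ^ ε := h4
      have h9 : (0 : ℝ) ≤ n := Nat.cast_nonneg n
      nlinarith
    exact_mod_cast h7)
  have h4 := hgrow L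
  have h5 : (((A ∩ Set.Iio L).ncard : ℝ) + 1) ≤ 2 * (L : ℝ) ^ δ := by
    have : (1 : ℝ) ≤ (L : ℝ) ^ δ := Real.one_le_rpow hLR hδ0
    linarith
  have h6 : (((A ∩ Set.Iio L).ncard : ℝ) + 1) ^ 2 ≤ 4 * (L : ℝ) ^ (2 * δ) := by
    have h7 : (0 : ℝ) ≤ (((A ∩ Set.Iio L).ncard : ℝ) + 1) := by positivity
    calc (((A ∩ Set.Iio L).ncard : ℝ) + 1) ^ 2 ≤ (2 * (L : ℝ) ^ δ) ^ 2 :=
          pow_le_pow_left₀ h7 h5 2
      _ = 4 * (L : ℝ) ^ (2 * δ) := by
          have h8 : ((L : ℝ) ^ δ) ^ 2 = (L : ℝ) ^ (2 * δ) := by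
            rw [← Real.rpow_natCast, ← Real.rpow_mul (by linarith)]
            push_cast
            ring_nf
          rw [mul_pow, h8]
          norm_num
  have h7 : C * (((A ∩ Set.Iio L).ncard : ℝ) + 1) ^ 2 ≤ C * (4 * (L : ℝ) ^ (2 * δ)) :=
    mul_le_mul_of_nonneg_left h6 hC0
  linarith

end Pool.Agent.Helper67.ET.ComplexityLowerBound
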