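import Pool.Agent.Lib.Helper67.ET.Cube

set_option autoImplicit false

/-!
Sets of low factor complexity with many elements contain proper cubes of large dimension.
-/

namespace Pool.Agent.Helper67.ET

/-- The pattern of `A` in the window `[t, t + n)`. -/
def win (A : Set ℕ) (n t : ℕ) : Set ℕ := {i | i < n ∧ t + i ∈ A}

/-- The factor complexity of the indicator sequence of `A`. -/
noncomputable def cx (A : Set ℕ) (n : ℕ) : ℕ := Set.ncard {W : Set ℕ | ∃ t, W = win A n t}

theorem finite_wins (A : Set ℕ) (n : ℕ) : {W : Set ℕ | ∃ t, W = win A n t}.Finite := by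
  apply (Set.Finite.finite_subsets (Set.finite_Iio n)).subset
  rintro W ⟨t, rfl⟩
  intro i hi
  exact hi.1

/-- A family of `k` proper `j`-dimensional cubes of `A` in `[0, N)`, with ordered disjoint hulls. -/
structure Fam (A : Set ℕ) (j N k : ℕ) (c : ℕ → ℕ × List ℕ) : Prop where
  len : ∀ i < k, (c i).2.length = j
  prop : ∀ i < k, Proper (c i).2
  cube : ∀ i < k, CubeIn A (c i).2 (c i).1
  ord : ∀ i i', i < i' → i' < k → (c i).1 + (c i).2.sum < (c i').1
  bd : ∀ i < k, (c i).1 + (c i).2.sum < N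

theorem Fam.reindex {A : Set ℕ} {j N k : ℕ} {c : ℕ → ℕ × List ℕ} (F : Fam A j N k c)
    (s : Finset ℕ) (hs : ∀ i ∈ s, i < k) :
    ∃ c' : ℕ → ℕ × List ℕ, Fam A j N s.card c' ∧ ∀ i < s.card, ∃ i' ∈ s, c' i = c i' := by
  classical
  let e := s.orderEmbOfFin rfl
  refine ⟨fun i => if h : i < s.card then c (e ⟨i, h⟩) else c 0, ?_, ?_⟩
  · constructor
    · intro i hi
      simp only [hi, dif_pos]
      exact F.len _ (hs _ (s.orderEmbOfFin_mem rfl _))
    · intro i hi
      simp only [hi, dif_pos]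
      exact F.prop _ (hs _ (s.orderEmbOfFin_mem rfl _))
    · intro i hi
      simp only [hi, dif_pos]
      exact F.cube _ (hs _ (s.orderEmbOfFin_mem rfl _))
    · intro i i' hii hi'
      have hi : i < s.card := hii.trans hi'
      simp only [hi, hi', dif_pos]
      refine F.ord _ _ ?_ (hs _ (s.orderEmbOfFin_mem rfl _))
      exact e.strictMono hii
    · intro i hi
      simp only [hi, dif_pos]
      exact F.bd _ (hs _ (s.orderEmbOfFin_mem rfl _))
  · intro i hi
    refine ⟨e ⟨i, hi⟩, s.orderEmbOfFin_mem rfl _, ?_⟩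
    simp only [hi, dif_pos]

/-- Gaps in a family all whose cubes have length at least `n - 1`. -/
theorem Fam.gap {A : Set ℕ} {j N k n : ℕ} {c : ℕ → ℕ × List ℕ} (F : Fam A j N k c)
    (hn : ∀ i < k, n ≤ (c i).2.sum + 1) (i w : ℕ) (hi : i + w < k) :
    (c i).1 + w * n ≤ (c (i + w)).1 := by
  induction w with
  | zero => simp
  | succ w ih =>
    have h1 := ih (by omega)
    have h2 := F.ord (i + w) (i + (w + 1)) (by omega) hi
    have h3 := hn (i + w) (by omega)
    rw [Nat.succ_mul]
    omega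

/-- One run of cubes of comparable length produces a cube of larger dimension. -/
theorem Fam.run {A : Set ℕ} {j N k n K : ℕ} {c : ℕ → ℕ × List ℕ} (F : Fam A j N k c)
    (hn1 : 1 ≤ n) (hn : ∀ i < k, n ≤ (c i).2.sum + 1) (hn' : ∀ i < k, (c i).2.sum + 1 < 2 * n)
    (hK : cx A (5 * n) ≤ K * (5 * n)) (r : ℕ) (hr : r + (5 * K + 8) < k) :
    ∃ b : ℕ × List ℕ, b.2.length = j + 1 ∧ Proper b.2 ∧ CubeIn A b.2 b.1 ∧
      (c r).1 < b.1 ∧ b.1 + b.2.sum < (c (r + (5 * K + 8))).1 := by
  classical
  set s : Finset (ℕ × ℕ) := Finset.range (5 * K + 1) ×ˢ Finset.range n with hs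
  let pos : ℕ × ℕ → ℕ := fun p => (c (r + 1 + p.1)).1 - p.2
  have hcard : {W : Set ℕ | ∃ t, W = win A (5 * n) t}.ncard < (s : Set (ℕ × ℕ)).ncard := by
    rw [Set.ncard_coe_finset, hs, Finset.card_product, Finset.card_range, Finset.card_range]
    refine lt_of_le_of_lt hK ?_
    nlinarith
  obtain ⟨p, hp, q, hq, hpq, hw⟩ := Set.exists_ne_map_eq_of_ncard_lt_of_maps_to hcard
    (f := fun p => win A (5 * n) (pos p)) (fun p _ => ⟨pos p, rfl⟩) (finite_wins A _)
  rw [hs, Finset.mem_coe, Finset.mem_product, Finset.mem_range, Finset.mem_range] at hp hq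
  -- the positions are at least `n` away from the origin
  have hbase : ∀ u, u < 5 * K + 1 → n ≤ (c (r + 1 + u)).1 := by
    intro u hu
    have h1 := F.gap hn r (1 + u) (by omega)
    rw [← add_assoc] at h1
    nlinarith
  have hord : ∀ p q : ℕ × ℕ, p.1 < 5 * K + 1 → p.2 < n → q.1 < 5 * K + 1 → q.2 < n →
      p.1 < q.1 → pos p < pos q := by
    intro p q hp1 hp2 hq1 hq2 hlt
    have h1 := F.gap hn (r + 1 + p.1) (q.1 - p.1) (by omega)
    have h2 : r + 1 + p.1 + (q.1 - p.1) = r + 1 + q.1 := by omega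
    rw [h2] at h1
    have h3 : n ≤ (q.1 - p.1) * n := by
      have : 1 ≤ q.1 - p.1 := by omega
      nlinarith
    have h4 := hbase p.1 hp1
    simp only [pos]
    omega
  -- main step for an ordered pair
  have main : ∀ p q : ℕ × ℕ, p.1 < 5 * K + 1 → p.2 < n → q.1 < 5 * K + 1 → q.2 < n →
      pos p < pos q → win A (5 * n) (pos p) = win A (5 * n) (pos q) →
      ∃ b : ℕ × List ℕ, b.2.length = j + 1 ∧ Proper b.2 ∧ CubeIn A b.2 b.1 ∧
      (c r).1 < b.1 ∧ b.1 + b.2.sum < (c (r + (5 * K + 8))).1 := by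
    intro p q hp1 hp2 hq1 hq2 hlt hw
    set a := (c (r + 1 + p.1)).1 with ha
    set ds := (c (r + 1 + p.1)).2 with hds
    have hik : r + 1 + p.1 < k := by omega
    have hlen := F.len _ hik
    have hprop := F.prop _ hik
    have hcube := F.cube _ hik
    have hsum : ds.sum + 1 < 2 * n := hn' _ hik
    have han := hbase p.1 hp1
    have htp : pos p = a - p.2 := rfl
    have htq : pos q = (c (r + 1 + q.1)).1 - q.2 := rfl
    have hqn := hbase q.1 hq1
    set d := pos q - pos p with hd
    have hdpos : 0 < d := by omega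
    -- periodicity inside the window
    have hper : ∀ x ∈ A, pos p ≤ x → x < pos p + 5 * n → x + d ∈ A := by
      intro x hx h1 h2
      have h3 : x - pos p ∈ win A (5 * n) (pos p) := by
        refine ⟨by omega, ?_⟩
        have : pos p + (x - pos p) = x := by omega
        rw [this]; exact hx
      rw [hw] at h3
      have h4 := h3.2
      have : pos q + (x - pos p) = x + d := by omega
      rwa [this] at h4
    have hperk : ∀ m : ℕ, ∀ x ∈ A, pos p ≤ x → x + m * d < pos p + 5 * n + d → x + m * d ∈ A := by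
      intro m
      induction m with
      | zero => intro x hx _ _; simpa using hx
      | succ m ih =>
        intro x hx h1 h2
        rw [Nat.succ_mul] at h2 ⊢
        have := ih x hx h1 (by omega)
        have h3 := hper _ this (by omega) (by omega)
        rwa [add_assoc] at h3
    -- choose the multiple
    obtain ⟨m, hm1, hm2⟩ : ∃ m, 2 * n ≤ (m + 1) * d ∧ m * d < 2 * n := by
      refine ⟨(2 * n - 1) / d, ?_, ?_⟩
      · have h1 := Nat.div_add_mod (2 * n - 1) d
        have h2 := Nat.mod_lt (2 * n - 1) hdpos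
        have h3 : ((2 * n - 1) / d + 1) * d = d * ((2 * n - 1) / d) + d := by ring
        rw [h3]
        omega
      · have := Nat.div_mul_le_self (2 * n - 1) d
        omega
    set e := (m + 1) * d with he
    have he' : e = m * d + d := by rw [he, Nat.succ_mul]
    have hgapend : (c (r + 1 + q.1)).1 + 7 * n ≤ (c (r + 1 + q.1 + 7)).1 :=
      F.gap hn (r + 1 + q.1) 7 (by omega)
    have hend : (c (r + 1 + q.1 + 7)).1 ≤ (c (r + (5 * K + 8))).1 := by
      have := F.gap hn (r + 1 + q.1 + 7) (5 * K - q.1) (by omega)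
      have h2 : r + 1 + q.1 + 7 + (5 * K - q.1) = r + (5 * K + 8) := by omega
      rw [h2] at this
      exact le_trans (Nat.le_add_right _ _) this
    have hstart : (c r).1 < a := by
      have := F.ord r (r + 1 + p.1) (by omega) hik
      omega
    refine ⟨(a, e :: ds), by simp [hds, hlen], ⟨by omega, hprop⟩, ⟨hcube, ?_⟩, hstart, ?_⟩
    · apply CubeIn.shift ds a _ hcube
      intro x hx h1 h2
      rw [he]
      apply hperk (m + 1) x hx (by omega)
      rw [← he]
      omega
    · simp only [List.sum_cons]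
      -- `m * d + d`
      rcases le_or_gt (2 * n) d with h | h
      · have hm0 : m = 0 := by
          by_contra hne
          have : 1 ≤ m := by omega
          have : d ≤ m * d := by nlinarith
          omega
        subst hm0
        simp only [zero_add, one_mul] at he
        omega
      · omega
  rcases lt_trichotomy (pos p) (pos q) with h | h | h
  · exact main p q hp.1 hp.2 hq.1 hq.2 h hw
  · exfalso
    rcases lt_trichotomy p.1 q.1 with h1 | h1 | h1
    · have := hord p q hp.1 hp.2 hq.1 hq.2 h1; omega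
    · apply hpq
      apply Prod.ext h1
      have h2 := hbase p.1 hp.1
      have h3 : (c (r + 1 + p.1)).1 = (c (r + 1 + q.1)).1 := by rw [h1]
      simp only [pos] at h
      omega
    · have := hord q p hq.1 hq.2 hp.1 hp.2 h1; omega
  · exact main q p hq.1 hq.2 hp.1 hp.2 h hw.symm

/-- Raising the dimension of a family of cubes. -/
theorem Fam.step {A : Set ℕ} {j N k K X : ℕ} {c : ℕ → ℕ × List ℕ} (F : Fam A j N k c)
    (hX : 1 ≤ X) (hK : ∀ n, 1 ≤ n → n ≤ N → cx A (5 * n) ≤ K * (5 * n))
    (hk : (Nat.log 2 N + 1) * ((5 * K + 9) * X) ≤ k) :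
    ∃ c' : ℕ → ℕ × List ℕ, Fam A (j + 1) N X c' := by
  classical
  -- dyadic classes
  obtain ⟨s, hs, hsc⟩ := Finset.exists_le_card_fiber_of_mul_le_card_of_maps_to
    (s := Finset.range k) (t := Finset.range (Nat.log 2 N + 1))
    (f := fun i => Nat.log 2 ((c i).2.sum + 1)) (n := (5 * K + 9) * X)
    (by
      intro i hi
      rw [Finset.mem_range] at hi ⊢
      have := F.bd i hi
      exact Nat.lt_succ_of_le (Nat.log_mono_right (by omega)))
    (by simp) (by simpa using hk)
  set S := (Finset.range k).filter (fun i => Nat.log 2 ((c i).2.sum + 1) = s) with hS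
  obtain ⟨c', F', hc'⟩ := F.reindex S (fun i hi => Finset.mem_range.mp (Finset.mem_filter.mp hi).1)
  have hcl : ∀ i < S.card, Nat.log 2 ((c' i).2.sum + 1) = s := by
    intro i hi
    obtain ⟨i', hi', h⟩ := hc' i hi
    rw [h]
    exact (Finset.mem_filter.mp hi').2
  have hn : ∀ i < S.card, 2 ^ s ≤ (c' i).2.sum + 1 := by
    intro i hi
    rw [← hcl i hi]
    exact Nat.pow_log_le_self 2 (by omega)
  have hn' : ∀ i < S.card, (c' i).2.sum + 1 < 2 * 2 ^ s := by
    intro i hi
    rw [← hcl i hi, ← pow_succ']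
    exact Nat.lt_pow_succ_log_self (by omega) _
  have hpos : 0 < S.card := by
    refine lt_of_lt_of_le ?_ hsc
    have : 0 < 5 * K + 9 := by omega
    positivity
  have hsN : 2 ^ s ≤ N := by
    have h1 := hn 0 hpos
    have h2 := F'.bd 0 hpos
    omega
  have hrun : ∀ r < X, ∃ b : ℕ × List ℕ, b.2.length = j + 1 ∧ Proper b.2 ∧ CubeIn A b.2 b.1 ∧
      (c' (r * (5 * K + 8))).1 < b.1 ∧
      b.1 + b.2.sum < (c' (r * (5 * K + 8) + (5 * K + 8))).1 := by
    intro r hr
    apply F'.run (n := 2 ^ s) (K := K) Nat.one_le_two_pow hn hn'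
      (hK _ Nat.one_le_two_pow hsN)
    have h1 : r + 1 ≤ X := hr
    have h2 : (r + 1) * (5 * K + 8) ≤ X * (5 * K + 8) := Nat.mul_le_mul_right _ h1
    have h3 : (5 * K + 9) * X = X * (5 * K + 8) + X := by ring
    have h4 : (r + 1) * (5 * K + 8) = r * (5 * K + 8) + (5 * K + 8) := by ring
    omega
  choose! b hb1 hb2 hb3 hb4 hb5 using hrun
  have hidx : ∀ r < X, r * (5 * K + 8) + (5 * K + 8) < S.card := by
    intro r hr
    have h1 : r + 1 ≤ X := hr
    have h2 : (r + 1) * (5 * K + 8) ≤ X * (5 * K + 8) := Nat.mul_le_mul_right _ h1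
    have h3 : (5 * K + 9) * X = X * (5 * K + 8) + X := by ring
    have h4 : (r + 1) * (5 * K + 8) = r * (5 * K + 8) + (5 * K + 8) := by ring
    omega
  refine ⟨b, ⟨hb1, hb2, hb3, ?_, ?_⟩⟩
  · intro r r' hrr hr'
    have h1 := hb5 r (hrr.trans hr')
    have h2 := hb4 r' hr'
    have h3 : r * (5 * K + 8) + (5 * K + 8) ≤ r' * (5 * K + 8) := by
      have : (r + 1) * (5 * K + 8) ≤ r' * (5 * K + 8) := Nat.mul_le_mul_right _ hrr
      have h4 : (r + 1) * (5 * K + 8) = r * (5 * K + 8) + (5 * K + 8) := by ring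
      omega
    have h4 : (c' (r * (5 * K + 8) + (5 * K + 8))).1 ≤ (c' (r' * (5 * K + 8))).1 := by
      rcases h3.eq_or_lt with h | h
      · rw [h]
      · have := F'.ord _ _ h (lt_of_le_of_lt (Nat.le_add_right _ _) (hidx r' hr'))
        omega
    omega
  · intro r hr
    have h1 := hb5 r hr
    have h2 := F'.bd _ (hidx r hr)
    omega

/-- Iterating: a large family of cubes gives a cube of large dimension. -/
theorem Fam.iterate {A : Set ℕ} {N K : ℕ}
    (hK : ∀ n, 1 ≤ n → n ≤ N → cx A (5 * n) ≤ K * (5 * n)) (e : ℕ) :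
    ∀ (j k : ℕ) (c : ℕ → ℕ × List ℕ), Fam A j N k c →
      ((Nat.log 2 N + 1) * (5 * K + 9)) ^ e ≤ k →
      ∃ (a : ℕ) (ds : List ℕ), ds.length = j + e ∧ Proper ds ∧ CubeIn A ds a := by
  induction e with
  | zero =>
    intro j k c F hk
    rw [pow_zero] at hk
    exact ⟨(c 0).1, (c 0).2, F.len 0 (by omega), F.prop 0 (by omega), F.cube 0 (by omega)⟩
  | succ e ih =>
    intro j k c F hk
    have hX : 1 ≤ ((Nat.log 2 N + 1) * (5 * K + 9)) ^ e :=
      Nat.one_le_iff_ne_zero.mpr (by positivity)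
    obtain ⟨c', F'⟩ := F.step hX hK (by
      refine le_trans (le_of_eq ?_) hk
      rw [pow_succ]; ring)
    obtain ⟨a, ds, h1, h2, h3⟩ := ih (j + 1) _ c' F' le_rfl
    exact ⟨a, ds, by omega, h2, h3⟩

/-- A set with linear factor complexity `≤ K n` up to scale `5 N` and with at least
`((log₂ N + 1)(5 K + 9)) ^ M` elements below `N` contains a proper `M`-dimensional cube. -/
theorem exists_cube {A : Set ℕ} {N K M : ℕ}
    (hK : ∀ n, 1 ≤ n → n ≤ N → cx A (5 * n) ≤ K * (5 * n))
    (hA : ((Nat.log 2 N + 1) * (5 * K + 9)) ^ M ≤ (A ∩ Set.Iio N).ncard) :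
    ∃ (a : ℕ) (ds : List ℕ), ds.length = M ∧ Proper ds ∧ CubeIn A ds a := by
  classical
  have hfin : (A ∩ Set.Iio N).Finite := (Set.finite_Iio N).inter_of_right A
  rw [Set.ncard_eq_toFinset_card _ hfin] at hA
  set S := hfin.toFinset with hS
  have hmem : ∀ i ∈ S, i ∈ A ∧ i < N := by
    intro i hi
    rw [hS, Set.Finite.mem_toFinset] at hi
    exact hi
  let e := S.orderEmbOfFin rfl
  have F : Fam A 0 N S.card (fun i => if h : i < S.card then (e ⟨i, h⟩, []) else (0, [])) := by
    constructor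
    · intro i hi; simp [hi]
    · intro i hi; simp only [hi, dif_pos]; trivial
    · intro i hi
      simp only [hi, dif_pos]
      exact (hmem _ (S.orderEmbOfFin_mem rfl _)).1
    · intro i i' hii hi'
      have hi : i < S.card := hii.trans hi'
      simp only [hi, hi', dif_pos, List.sum_nil, add_zero]
      exact e.strictMono hii
    · intro i hi
      simp only [hi, dif_pos, List.sum_nil, add_zero]
      exact (hmem _ (S.orderEmbOfFin_mem rfl _)).2
  obtain ⟨a, ds, h1, h2, h3⟩ := Fam.iterate hK M 0 _ _ F hA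
  exact ⟨a, ds, by omega, h2, h3⟩

end Pool.Agent.Helper67.ET
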