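import Mathlib

set_option autoImplicit false

/-!
Hilbert cubes inside sets of natural numbers, and additive representations coming from them.
-/

namespace Pool.Agent.Helper67.ET

/-- The cube `a + {subset sums of ds}` is contained in `A`. -/
def CubeIn (A : Set ℕ) : List ℕ → ℕ → Prop
  | [], a => a ∈ A
  | d :: ds, a => CubeIn A ds a ∧ CubeIn A ds (a + d)

/-- Every generator exceeds the sum of the later ones. -/
def Proper : List ℕ → Prop
  | [] => True
  | d :: ds => ds.sum < d ∧ Proper ds

/-- The elements of the cube. -/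
def vals : List ℕ → ℕ → Finset ℕ
  | [], a => {a}
  | d :: ds, a => vals ds a ∪ vals ds (a + d)

theorem CubeIn.shift {A : Set ℕ} {e : ℕ} : ∀ (ds : List ℕ) (a : ℕ),
    (∀ x ∈ A, a ≤ x → x ≤ a + ds.sum → x + e ∈ A) → CubeIn A ds a → CubeIn A ds (a + e)
  | [], a, h, hc => h a hc le_rfl (by simp)
  | d :: ds, a, h, hc => by
    refine ⟨CubeIn.shift ds a (fun x hx h1 h2 => h x hx h1 ?_) hc.1, ?_⟩
    · simp only [List.sum_cons]; omega
    · have := CubeIn.shift ds (a + d) (fun x hx h1 h2 => h x hx (by omega) ?_) hc.2
      · rwa [add_right_comm] at this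
      · simp only [List.sum_cons]; omega

theorem vals_mem {A : Set ℕ} : ∀ (ds : List ℕ) (a : ℕ), CubeIn A ds a → ∀ x ∈ vals ds a, x ∈ A
  | [], a, h, x, hx => by
    simp only [vals, Finset.mem_singleton] at hx
    subst hx; exact h
  | d :: ds, a, h, x, hx => by
    simp only [vals, Finset.mem_union] at hx
    rcases hx with hx | hx
    · exact vals_mem ds a h.1 x hx
    · exact vals_mem ds (a + d) h.2 x hx

theorem vals_range : ∀ (ds : List ℕ) (a : ℕ), ∀ x ∈ vals ds a, a ≤ x ∧ x ≤ a + ds.sum
  | [], a, x, hx => by
    simp only [vals, Finset.mem_singleton] at hx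
    subst hx; simp
  | d :: ds, a, x, hx => by
    simp only [vals, Finset.mem_union] at hx
    simp only [List.sum_cons]
    rcases hx with hx | hx
    · have := vals_range ds a x hx; omega
    · have := vals_range ds (a + d) x hx; omega

theorem vals_card : ∀ (ds : List ℕ) (a : ℕ), Proper ds → (vals ds a).card = 2 ^ ds.length
  | [], a, _ => by simp [vals]
  | d :: ds, a, h => by
    simp only [vals, List.length_cons]
    rw [Finset.card_union_of_disjoint, vals_card ds a h.2, vals_card ds (a + d) h.2]
    · ring
    · rw [Finset.disjoint_left]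
      intro x hx hx'
      have h1 := vals_range ds a x hx
      have h2 := vals_range ds (a + d) x hx'
      have := h.1
      omega

theorem vals_symm : ∀ (ds : List ℕ) (a b : ℕ), ∀ x ∈ vals ds a, ∃ y ∈ vals ds b,
    x + y = a + b + ds.sum
  | [], a, b, x, hx => by
    simp only [vals, Finset.mem_singleton] at hx
    subst hx; exact ⟨b, by simp [vals], by simp⟩
  | d :: ds, a, b, x, hx => by
    simp only [vals, Finset.mem_union] at hx
    simp only [List.sum_cons]
    rcases hx with hx | hx
    · obtain ⟨y, hy, h⟩ := vals_symm ds a (b + d) x hx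
      exact ⟨y, by simp [vals, hy], by omega⟩
    · obtain ⟨y, hy, h⟩ := vals_symm ds (a + d) b x hx
      exact ⟨y, by simp [vals, hy], by omega⟩

theorem self_mem_vals : ∀ (ds : List ℕ) (a : ℕ), a ∈ vals ds a
  | [], a => by simp [vals]
  | d :: ds, a => by simp [vals, self_mem_vals ds a]

/-- Ordered representations from a cube. -/
theorem ordered_reps {A : Set ℕ} {ds : List ℕ} {a : ℕ} (hp : Proper ds) (hc : CubeIn A ds a) :
    2 ^ ds.length ≤ ({p : ℕ × ℕ | p.1 ∈ A ∧ p.2 ∈ A ∧ p.1 + p.2 = a + a + ds.sum} :
      Set (ℕ × ℕ)).ncard := by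
  classical
  rw [← vals_card ds a hp, ← Set.ncard_coe_finset]
  have hfin : ({p : ℕ × ℕ | p.1 ∈ A ∧ p.2 ∈ A ∧ p.1 + p.2 = a + a + ds.sum} :
      Set (ℕ × ℕ)).Finite := by
    apply Set.Finite.subset ((Finset.range (a + a + ds.sum + 1) ×ˢ
      Finset.range (a + a + ds.sum + 1)).finite_toSet)
    rintro ⟨x, y⟩ ⟨_, _, h⟩
    simp only at h
    simp only [Finset.coe_product, Finset.coe_range, Set.mem_prod, Set.mem_Iio]
    omega
  refine Set.ncard_le_ncard_of_injOn (fun x => (x, a + a + ds.sum - x)) ?_ ?_ hfin
  · intro x hx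
    obtain ⟨y, hy, h⟩ := vals_symm ds a a x hx
    refine ⟨vals_mem ds a hc x hx, ?_, ?_⟩
    · have : a + a + ds.sum - x = y := by omega
      simp only [this]
      exact vals_mem ds a hc y hy
    · simp only; omega
  · intro x _ y _ hxy
    simpa using congrArg Prod.fst hxy

/-- The set of multisets of `h` elements of `A` with sum `n` is finite. -/
theorem finite_reps (A : Set ℕ) (h n : ℕ) :
    {s : Multiset ℕ | Multiset.card s = h ∧ (∀ a ∈ s, a ∈ A) ∧ s.sum = n}.Finite := by
  classical
  have : {s : Multiset ℕ | Multiset.card s = h ∧ (∀ a ∈ s, a ∈ A) ∧ s.sum = n} ⊆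
      ((Multiset.powerset (Multiset.replicate 1 (Multiset.replicate 0 0) |>.bind fun _ =>
        (Multiset.range (n + 1)).bind fun x => Multiset.replicate h x)).toFinset :
        Set (Multiset ℕ)) := by
    rintro s ⟨h1, h2, h3⟩
    simp only [Finset.mem_coe, Multiset.mem_toFinset, Multiset.mem_powerset]
    rw [Multiset.le_iff_count]
    intro x
    by_cases hx : x ∈ s
    · have hxn : x ≤ n := by
        rw [← h3]; exact Multiset.single_le_sum (fun _ _ => Nat.zero_le _) x hx
      have h4 : s.count x ≤ h := by
        rw [← h1]; exact Multiset.count_le_card x s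
      refine h4.trans ?_
      simp only [Multiset.replicate_one, Multiset.singleton_bind]
      rw [Multiset.count_bind]
      have h5 : h = Multiset.count x (Multiset.replicate h x) := by simp
      refine (le_of_eq h5).trans ?_
      apply Multiset.single_le_sum (fun _ _ => Nat.zero_le _)
      rw [Multiset.mem_map]
      exact ⟨x, by simp; omega, rfl⟩
    · rw [Multiset.count_eq_zero_of_notMem hx]
      exact Nat.zero_le _
  exact (Finset.finite_toSet _).subset this

/-- Unordered representations of order `h` from a cube. -/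
theorem unordered_reps {A : Set ℕ} {ds : List ℕ} {a : ℕ} (hp : Proper ds) (hc : CubeIn A ds a)
    {h : ℕ} (hh : 2 ≤ h) :
    ∃ n, 2 ^ ds.length ≤ 2 * Set.ncard {s : Multiset ℕ | Multiset.card s = h ∧
      (∀ a ∈ s, a ∈ A) ∧ s.sum = n} := by
  classical
  refine ⟨a + a + ds.sum + (h - 2) * a, ?_⟩
  set σ := a + a + ds.sum with hσ
  have haA : a ∈ A := vals_mem ds a hc a (self_mem_vals ds a)
  have hfin := finite_reps A h (σ + (h - 2) * a)
  rw [Set.ncard_eq_toFinset_card _ hfin, ← vals_card ds a hp]
  let f : ℕ → Multiset ℕ := fun x => ({x, σ - x} : Multiset ℕ) + Multiset.replicate (h - 2) a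
  have hmaps : ∀ x ∈ vals ds a, f x ∈ hfin.toFinset := by
    intro x hx
    obtain ⟨y, hy, hxy⟩ := vals_symm ds a a x hx
    have hy' : σ - x = y := by omega
    rw [Set.Finite.mem_toFinset]
    refine ⟨?_, ?_, ?_⟩
    · simp only [f, Multiset.card_add, Multiset.insert_eq_cons, Multiset.card_cons,
        Multiset.card_singleton, Multiset.card_replicate]
      omega
    · intro z hz
      simp only [f, Multiset.mem_add, Multiset.insert_eq_cons, Multiset.mem_cons,
        Multiset.mem_singleton, Multiset.mem_replicate] at hz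
      rcases hz with (hz | hz) | hz
      · rw [hz]; exact vals_mem ds a hc x hx
      · rw [hz, hy']; exact vals_mem ds a hc y hy
      · rw [hz.2]; exact haA
    · simp only [f, Multiset.sum_add, Multiset.insert_eq_cons, Multiset.sum_cons,
        Multiset.sum_singleton, Multiset.sum_replicate, smul_eq_mul]
      omega
  have hfib : ∀ b ∈ hfin.toFinset, ((vals ds a).filter (fun x => f x = b)).card ≤ 2 := by
    intro b _
    rcases ((vals ds a).filter (fun x => f x = b)).eq_empty_or_nonempty with he | ⟨x, hx⟩
    · rw [he]; simp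
    · rw [Finset.mem_filter] at hx
      have hsub : (vals ds a).filter (fun y => f y = b) ⊆ {x, σ - x} := by
        intro y hy
        rw [Finset.mem_filter] at hy
        have h1 : f y = f x := hy.2.trans hx.2.symm
        have h2 : ({y, σ - y} : Multiset ℕ) = {x, σ - x} := add_right_cancel h1
        have h3 : y ∈ ({x, σ - x} : Multiset ℕ) := by rw [← h2]; simp
        simpa using h3
      refine (Finset.card_le_card hsub).trans ?_
      exact Finset.card_le_two
  have := Finset.card_le_mul_card_image_of_maps_to hmaps 2 hfib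
  linarith

end Pool.Agent.Helper67.ET
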