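import Pool.Agent.Lib.Helper67.ET.Core

set_option autoImplicit false

/-!
The set of sums of `k` distinct powers of `4`: linear factor complexity, bounded representation
function and at least `c (log N) ^ k` elements below `N`.
-/

namespace Pool.Agent.Helper67.ET

/-- All base `4` digits are `0` or `1`. -/
def Ok (n : ℕ) : Prop := ∀ d ∈ Nat.digits 4 n, d ≤ 1

/-- Base `4` digit sum. -/
def dsum (n : ℕ) : ℕ := (Nat.digits 4 n).sum

/-- Sums of `k` distinct powers of `4`. -/
def PS (k : ℕ) : Set ℕ := {n | Ok n ∧ dsum n = k}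

theorem ok_zero : Ok 0 := by simp [Ok]
theorem dsum_zero : dsum 0 = 0 := by simp [dsum]

theorem digits_step (q s : ℕ) (hs : s < 4) (h : 0 < 4 * q + s) :
    Nat.digits 4 (4 * q + s) = s :: Nat.digits 4 q := by
  rw [Nat.digits_def' (by norm_num) h]
  have h1 : (4 * q + s) % 4 = s := by omega
  have h2 : (4 * q + s) / 4 = q := by omega
  rw [h1, h2]

theorem ok_step (q s : ℕ) (hs : s < 4) : Ok (4 * q + s) ↔ s ≤ 1 ∧ Ok q := by
  rcases Nat.eq_zero_or_pos (4 * q + s) with h | h
  · have hq : q = 0 := by omega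
    have hs : s = 0 := by omega
    subst hq; subst hs
    simp [ok_zero]
  · unfold Ok
    rw [digits_step q s hs h]
    simp

theorem dsum_step (q s : ℕ) (hs : s < 4) : dsum (4 * q + s) = s + dsum q := by
  rcases Nat.eq_zero_or_pos (4 * q + s) with h | h
  · have hq : q = 0 := by omega
    have hs : s = 0 := by omega
    subst hq; subst hs
    simp [dsum_zero]
  · unfold dsum
    rw [digits_step q s hs h]
    simp

theorem ok_block (j : ℕ) : ∀ q s : ℕ, s < 4 ^ j → (Ok (4 ^ j * q + s) ↔ Ok s ∧ Ok q) := by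
  induction j with
  | zero =>
    intro q s hs
    have : s = 0 := by simpa using hs
    subst this
    simp [ok_zero]
  | succ j ih =>
    intro q s hs
    have h1 : s = 4 * (s / 4) + s % 4 := by omega
    have h2 : s % 4 < 4 := Nat.mod_lt _ (by norm_num)
    have h3 : s / 4 < 4 ^ j := by
      rw [pow_succ] at hs
      omega
    have h4 : 4 ^ (j + 1) * q + s = 4 * (4 ^ j * q + s / 4) + s % 4 := by
      rw [pow_succ]
      have : 4 ^ j * 4 * q = 4 * (4 ^ j * q) := by ring
      omega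
    rw [h4, ok_step _ _ h2, ih q _ h3]
    conv_rhs => rw [h1, ok_step _ _ h2]
    tauto

theorem dsum_block (j : ℕ) : ∀ q s : ℕ, s < 4 ^ j → dsum (4 ^ j * q + s) = dsum s + dsum q := by
  induction j with
  | zero =>
    intro q s hs
    have : s = 0 := by simpa using hs
    subst this
    simp [dsum_zero]
  | succ j ih =>
    intro q s hs
    have h1 : s = 4 * (s / 4) + s % 4 := by omega
    have h2 : s % 4 < 4 := Nat.mod_lt _ (by norm_num)
    have h3 : s / 4 < 4 ^ j := by
      rw [pow_succ] at hs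
      omega
    have h4 : 4 ^ (j + 1) * q + s = 4 * (4 ^ j * q + s / 4) + s % 4 := by
      rw [pow_succ]
      have : 4 ^ j * 4 * q = 4 * (4 ^ j * q) := by ring
      omega
    rw [h4, dsum_step _ _ h2, ih q _ h3]
    conv_rhs => rw [h1, dsum_step _ _ h2]
    omega

/-- The number of representations as a sum of two elements of given classes. -/
theorem reps_le (n : ℕ) : ∀ k l : ℕ, ({p : ℕ × ℕ | p.1 ∈ PS k ∧ p.2 ∈ PS l ∧ p.1 + p.2 = n} :
    Set (ℕ × ℕ)).ncard ≤ 2 ^ (k + l) := by
  classical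
  induction n using Nat.strong_induction_on with
  | _ n ih =>
    intro k l
    rcases Nat.eq_zero_or_pos n with hn | hn
    · subst hn
      have hsub : ({p : ℕ × ℕ | p.1 ∈ PS k ∧ p.2 ∈ PS l ∧ p.1 + p.2 = 0} : Set (ℕ × ℕ)) ⊆
          {((0 : ℕ), (0 : ℕ))} := by
        rintro ⟨a, b⟩ ⟨_, _, h⟩
        simp only at h
        simp only [Set.mem_singleton_iff, Prod.mk.injEq]
        omega
      refine (Set.ncard_le_ncard hsub (Set.finite_singleton _)).trans ?_
      rw [Set.ncard_singleton]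
      exact Nat.one_le_two_pow
    · -- split by the last digit
      have hfin : ∀ k l m : ℕ, ({p : ℕ × ℕ | p.1 ∈ PS k ∧ p.2 ∈ PS l ∧ p.1 + p.2 = m} :
          Set (ℕ × ℕ)).Finite := by
        intro k l m
        apply Set.Finite.subset ((Finset.range (m + 1) ×ˢ Finset.range (m + 1)).finite_toSet)
        rintro ⟨x, y⟩ ⟨_, _, h⟩
        simp only at h
        simp only [Finset.coe_product, Finset.coe_range, Set.mem_prod, Set.mem_Iio]
        omega
      have key : ∀ a : ℕ, ∀ k : ℕ, a ∈ PS k → a % 4 ≤ 1 ∧ a % 4 ≤ k ∧ a / 4 ∈ PS (k - a % 4) := by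
        rintro a k ⟨h1, h2⟩
        have h3 : a = 4 * (a / 4) + a % 4 := by omega
        have h4 : a % 4 < 4 := Nat.mod_lt _ (by norm_num)
        rw [h3, ok_step _ _ h4] at h1
        rw [h3, dsum_step _ _ h4] at h2
        exact ⟨h1.1, by omega, h1.2, by omega⟩
      have himg : ∀ (s t k' l' m : ℕ), m < n →
          (Set.image (fun p : ℕ × ℕ => (4 * p.1 + s, 4 * p.2 + t))
            ({p : ℕ × ℕ | p.1 ∈ PS k' ∧ p.2 ∈ PS l' ∧ p.1 + p.2 = m})).ncard ≤
            2 ^ (k' + l') := by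
        intro s t k' l' m hm
        exact (Set.ncard_image_le (hfin k' l' m)).trans (ih m hm k' l')
      have h4 : n % 4 < 4 := Nat.mod_lt _ (by norm_num)
      have hdiv : n / 4 < n := Nat.div_lt_self hn (by norm_num)
      -- every representation has last digits `(0,0), (0,1), (1,0), (1,1)`
      have hcases : n % 4 = 0 ∨ n % 4 = 1 ∨ n % 4 = 2 ∨ n % 4 = 3 := by omega
      rcases hcases with h | h | h | h
      · have hsub : ({p : ℕ × ℕ | p.1 ∈ PS k ∧ p.2 ∈ PS l ∧ p.1 + p.2 = n} : Set (ℕ × ℕ)) ⊆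
            Set.image (fun p : ℕ × ℕ => (4 * p.1 + 0, 4 * p.2 + 0))
            ({p : ℕ × ℕ | p.1 ∈ PS k ∧ p.2 ∈ PS l ∧ p.1 + p.2 = n / 4}) := by
          rintro ⟨a, b⟩ ⟨ha, hb, hab⟩
          simp only at ha hb hab
          obtain ⟨a1, a2, a3⟩ := key a k ha
          obtain ⟨b1, b2, b3⟩ := key b l hb
          have ha0 : a % 4 = 0 := by omega
          have hb0 : b % 4 = 0 := by omega
          rw [ha0] at a3; rw [hb0] at b3
          refine ⟨(a / 4, b / 4), ⟨a3, b3, by simp only; omega⟩, ?_⟩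
          simp only [Prod.mk.injEq]; omega
        exact (Set.ncard_le_ncard hsub ((hfin _ _ _).image _)).trans (himg 0 0 k l _ hdiv)
      · have hsub : ({p : ℕ × ℕ | p.1 ∈ PS k ∧ p.2 ∈ PS l ∧ p.1 + p.2 = n} : Set (ℕ × ℕ)) ⊆
            (if 1 ≤ k then Set.image (fun p : ℕ × ℕ => (4 * p.1 + 1, 4 * p.2 + 0))
            ({p : ℕ × ℕ | p.1 ∈ PS (k - 1) ∧ p.2 ∈ PS l ∧ p.1 + p.2 = n / 4}) else ∅) ∪
            (if 1 ≤ l then Set.image (fun p : ℕ × ℕ => (4 * p.1 + 0, 4 * p.2 + 1))
            ({p : ℕ × ℕ | p.1 ∈ PS k ∧ p.2 ∈ PS (l - 1) ∧ p.1 + p.2 = n / 4}) else ∅) := by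
          rintro ⟨a, b⟩ ⟨ha, hb, hab⟩
          simp only at ha hb hab
          obtain ⟨a1, a2, a3⟩ := key a k ha
          obtain ⟨b1, b2, b3⟩ := key b l hb
          by_cases ha1 : a % 4 = 1
          · left
            have hb0 : b % 4 = 0 := by omega
            rw [ha1] at a3; rw [hb0] at b3
            rw [if_pos (by omega)]
            refine ⟨(a / 4, b / 4), ⟨a3, b3, by simp only; omega⟩, ?_⟩
            simp only [Prod.mk.injEq]; omega
          · right
            have ha0 : a % 4 = 0 := by omega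
            have hb1 : b % 4 = 1 := by omega
            rw [ha0] at a3; rw [hb1] at b3
            rw [if_pos (by omega)]
            refine ⟨(a / 4, b / 4), ⟨a3, b3, by simp only; omega⟩, ?_⟩
            simp only [Prod.mk.injEq]; omega
        have hf1 : (if 1 ≤ k then Set.image (fun p : ℕ × ℕ => (4 * p.1 + 1, 4 * p.2 + 0))
            ({p : ℕ × ℕ | p.1 ∈ PS (k - 1) ∧ p.2 ∈ PS l ∧ p.1 + p.2 = n / 4}) else
            (∅ : Set (ℕ × ℕ))).Finite := by
          split_ifs
          · exact (hfin _ _ _).image _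
          · exact Set.finite_empty
        have hf2 : (if 1 ≤ l then Set.image (fun p : ℕ × ℕ => (4 * p.1 + 0, 4 * p.2 + 1))
            ({p : ℕ × ℕ | p.1 ∈ PS k ∧ p.2 ∈ PS (l - 1) ∧ p.1 + p.2 = n / 4}) else
            (∅ : Set (ℕ × ℕ))).Finite := by
          split_ifs
          · exact (hfin _ _ _).image _
          · exact Set.finite_empty
        refine (Set.ncard_le_ncard hsub (hf1.union hf2)).trans ((Set.ncard_union_le _ _).trans ?_)
        have hc1 : (if 1 ≤ k then Set.image (fun p : ℕ × ℕ => (4 * p.1 + 1, 4 * p.2 + 0))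
            ({p : ℕ × ℕ | p.1 ∈ PS (k - 1) ∧ p.2 ∈ PS l ∧ p.1 + p.2 = n / 4}) else
            (∅ : Set (ℕ × ℕ))).ncard * 2 ≤ 2 ^ (k + l) := by
          split_ifs with hk
          · have := himg 1 0 (k - 1) l (n / 4) hdiv
            have h5 : 2 ^ (k + l) = 2 ^ (k - 1 + l) * 2 := by
              rw [← pow_succ]; congr 1; omega
            rw [h5]
            exact Nat.mul_le_mul_right _ this
          · simp
        have hc2 : (if 1 ≤ l then Set.image (fun p : ℕ × ℕ => (4 * p.1 + 0, 4 * p.2 + 1))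
            ({p : ℕ × ℕ | p.1 ∈ PS k ∧ p.2 ∈ PS (l - 1) ∧ p.1 + p.2 = n / 4}) else
            (∅ : Set (ℕ × ℕ))).ncard * 2 ≤ 2 ^ (k + l) := by
          split_ifs with hl
          · have := himg 0 1 k (l - 1) (n / 4) hdiv
            have h5 : 2 ^ (k + l) = 2 ^ (k + (l - 1)) * 2 := by
              rw [← pow_succ]; congr 1; omega
            rw [h5]
            exact Nat.mul_le_mul_right _ this
          · simp
        omega
      · have hsub : ({p : ℕ × ℕ | p.1 ∈ PS k ∧ p.2 ∈ PS l ∧ p.1 + p.2 = n} : Set (ℕ × ℕ)) ⊆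
            Set.image (fun p : ℕ × ℕ => (4 * p.1 + 1, 4 * p.2 + 1))
            ({p : ℕ × ℕ | p.1 ∈ PS (k - 1) ∧ p.2 ∈ PS (l - 1) ∧ p.1 + p.2 = n / 4}) := by
          rintro ⟨a, b⟩ ⟨ha, hb, hab⟩
          simp only at ha hb hab
          obtain ⟨a1, a2, a3⟩ := key a k ha
          obtain ⟨b1, b2, b3⟩ := key b l hb
          have ha0 : a % 4 = 1 := by omega
          have hb0 : b % 4 = 1 := by omega
          rw [ha0] at a3; rw [hb0] at b3
          refine ⟨(a / 4, b / 4), ⟨a3, b3, by simp only; omega⟩, ?_⟩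
          simp only [Prod.mk.injEq]; omega
        refine (Set.ncard_le_ncard hsub ((hfin _ _ _).image _)).trans
          ((himg 1 1 (k - 1) (l - 1) _ hdiv).trans ?_)
        exact Nat.pow_le_pow_right (by norm_num) (by omega)
      · have hsub : ({p : ℕ × ℕ | p.1 ∈ PS k ∧ p.2 ∈ PS l ∧ p.1 + p.2 = n} : Set (ℕ × ℕ)) = ∅ := by
          apply Set.eq_empty_of_forall_notMem
          rintro ⟨a, b⟩ ⟨ha, hb, hab⟩
          simp only at ha hb hab
          obtain ⟨a1, a2, a3⟩ := key a k ha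
          obtain ⟨b1, b2, b3⟩ := key b l hb
          omega
        rw [hsub]; simp

/-- `PS k` has linear factor complexity. -/
theorem cx_PS (k n : ℕ) (hn : 1 ≤ n) : cx (PS k) n ≤ (4 * (k + 2) ^ 2) * n := by
  classical
  -- choose the block length
  obtain ⟨j, hj1, hj2⟩ : ∃ j, n ≤ 4 ^ j ∧ 4 ^ j ≤ 4 * n := by
    rcases Nat.lt_or_ge 1 n with h | h
    · refine ⟨Nat.clog 4 n, Nat.le_pow_clog (by norm_num) n, ?_⟩
      have h1 : 4 ^ (Nat.clog 4 n).pred < n := Nat.pow_pred_clog_lt_self (by norm_num) h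
      have h2 : 0 < Nat.clog 4 n := Nat.clog_pos (by norm_num) h
      have h3 : Nat.clog 4 n = (Nat.clog 4 n).pred + 1 := by
        rw [Nat.pred_eq_sub_one]; omega
      rw [h3, pow_succ]
      omega
    · exact ⟨0, by simpa using h, by simp; omega⟩
  -- the type of a block
  let ty : ℕ → ℕ := fun q => if Ok q ∧ dsum q ≤ k then dsum q else k + 1
  have hty : ∀ q, ty q < k + 2 := by
    intro q
    simp only [ty]
    split_ifs with h <;> omega
  have hmem : ∀ q s, s < 4 ^ j → (4 ^ j * q + s ∈ PS k ↔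
      ty q ≤ k ∧ Ok s ∧ dsum s + ty q = k) := by
    intro q s hs
    simp only [PS, Set.mem_ofPred_eq, ok_block j q s hs, dsum_block j q s hs, ty]
    split_ifs with h
    · have h1 := h.1
      have h2 := h.2
      tauto
    · constructor
      · rintro ⟨⟨h1, h2⟩, h3⟩
        exact absurd ⟨h2, by omega⟩ h
      · rintro ⟨h1, _⟩
        omega
  -- windows are determined by the offset and the types of two consecutive blocks
  let f : ℕ → ℕ × ℕ × ℕ := fun t => (t % 4 ^ j, ty (t / 4 ^ j), ty (t / 4 ^ j + 1))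
  have hpos : 0 < 4 ^ j := by positivity
  have hdet : ∀ t t', f t = f t' → win (PS k) n t = win (PS k) n t' := by
    intro t t' h
    simp only [f, Prod.mk.injEq] at h
    obtain ⟨h1, h2, h3⟩ := h
    have hdec : ∀ t i : ℕ, i < n → (t + i ∈ PS k ↔
        if t % 4 ^ j + i < 4 ^ j then
          (ty (t / 4 ^ j) ≤ k ∧ Ok (t % 4 ^ j + i) ∧ dsum (t % 4 ^ j + i) + ty (t / 4 ^ j) = k)
        else (ty (t / 4 ^ j + 1) ≤ k ∧ Ok (t % 4 ^ j + i - 4 ^ j) ∧
          dsum (t % 4 ^ j + i - 4 ^ j) + ty (t / 4 ^ j + 1) = k)) := by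
      intro t i hi
      have hd := Nat.div_add_mod t (4 ^ j)
      split_ifs with hlt
      · rw [← hmem _ _ hlt]
        have : t + i = 4 ^ j * (t / 4 ^ j) + (t % 4 ^ j + i) := by omega
        rw [← this]
      · have hlt2 : t % 4 ^ j + i - 4 ^ j < 4 ^ j := by
          have := Nat.mod_lt t hpos
          omega
        rw [← hmem _ _ hlt2]
        have : t + i = 4 ^ j * (t / 4 ^ j + 1) + (t % 4 ^ j + i - 4 ^ j) := by
          rw [Nat.mul_add, Nat.mul_one]; omega
        rw [← this]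
    ext i
    simp only [win, Set.mem_ofPred_eq]
    constructor
    · rintro ⟨hi, hm⟩
      refine ⟨hi, ?_⟩
      rw [hdec t i hi] at hm
      rw [hdec t' i hi, ← h1, ← h2, ← h3]
      exact hm
    · rintro ⟨hi, hm⟩
      refine ⟨hi, ?_⟩
      rw [hdec t' i hi] at hm
      rw [hdec t i hi, h1, h2, h3]
      exact hm
  -- count
  have hsub : {W : Set ℕ | ∃ t, W = win (PS k) n t} ⊆
      (fun x : ℕ × ℕ × ℕ => win (PS k) n (if h : ∃ t, f t = x then h.choose else 0)) ''
        ((Finset.range (4 ^ j) ×ˢ (Finset.range (k + 2) ×ˢ Finset.range (k + 2)) :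
          Finset (ℕ × ℕ × ℕ)) : Set (ℕ × ℕ × ℕ)) := by
    rintro W ⟨t, rfl⟩
    refine ⟨f t, ?_, ?_⟩
    · simp only [Finset.coe_product, Finset.coe_range, Set.mem_prod, Set.mem_Iio, f]
      exact ⟨Nat.mod_lt _ hpos, hty _, hty _⟩
    · have hex : ∃ t', f t' = f t := ⟨t, rfl⟩
      simp only [hex, dif_pos]
      exact hdet _ _ hex.choose_spec
  unfold cx
  refine (Set.ncard_le_ncard hsub ((Finset.finite_toSet _).image _)).trans
    ((Set.ncard_image_le (Finset.finite_toSet _)).trans ?_)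
  rw [Set.ncard_coe_finset, Finset.card_product, Finset.card_product, Finset.card_range,
    Finset.card_range]
  calc 4 ^ j * ((k + 2) * (k + 2)) ≤ 4 * n * ((k + 2) * (k + 2)) := Nat.mul_le_mul_right _ hj2
    _ = 4 * (k + 2) ^ 2 * n := by ring

/-- Sums of distinct powers of four lie in `PS`. -/
theorem sum_mem_PS (m : ℕ) : ∀ S : Finset ℕ, S ⊆ Finset.range m →
    (∑ i ∈ S, 4 ^ i) ∈ PS S.card ∧ (∑ i ∈ S, 4 ^ i) < 4 ^ m := by
  classical
  induction m with
  | zero =>
    intro S hS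
    have : S = ∅ := by simpa using hS
    subst this
    simp [PS, ok_zero, dsum_zero]
  | succ m ih =>
    intro S hS
    obtain ⟨h1, h2⟩ := ih (S.erase m) (by
      intro i hi
      rw [Finset.mem_erase] at hi
      have := Finset.mem_range.mp (hS hi.2)
      rw [Finset.mem_range]; omega)
    by_cases hm : m ∈ S
    · have hsum : (∑ i ∈ S, 4 ^ i) = 4 ^ m * 1 + ∑ i ∈ S.erase m, 4 ^ i := by
        rw [mul_one, Finset.add_sum_erase S (fun i => 4 ^ i) hm]
      have hcard : S.card = (S.erase m).card + 1 := by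
        rw [Finset.card_erase_add_one hm]
      have hone : Ok 1 ∧ dsum 1 = 1 := by
        constructor <;> simp [Ok, dsum]
      rw [hsum]
      refine ⟨⟨?_, ?_⟩, ?_⟩
      · rw [ok_block m 1 _ h2]; exact ⟨h1.1, hone.1⟩
      · rw [dsum_block m 1 _ h2, hone.2, h1.2, hcard]
      · rw [pow_succ]; omega
    · rw [Finset.erase_eq_of_notMem hm] at h1 h2
      refine ⟨h1, ?_⟩
      rw [pow_succ]; omega

theorem zero_notMem_PS {k : ℕ} (hk : 1 ≤ k) : 0 ∉ PS k := by
  rintro ⟨_, h⟩
  rw [dsum_zero] at h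
  omega

theorem choose_le_count {k m N : ℕ} (hk : 1 ≤ k) (hm : 4 ^ m ≤ N) :
    m.choose k ≤ (PS k ∩ Set.Icc 1 N).ncard := by
  classical
  rw [← Finset.card_range m, ← Finset.card_powersetCard, ← Set.ncard_coe_finset]
  refine Set.ncard_le_ncard_of_injOn (fun S : Finset ℕ => ∑ i ∈ S, 4 ^ i) ?_ ?_
    ((Set.finite_Icc 1 N).inter_of_right _)
  · intro S hS
    rw [Finset.mem_coe, Finset.mem_powersetCard] at hS
    obtain ⟨h1, h2⟩ := sum_mem_PS m S hS.1
    rw [hS.2] at h1
    refine ⟨h1, ?_, (h2.le.trans hm)⟩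
    rcases Nat.eq_zero_or_pos (∑ i ∈ S, 4 ^ i) with h | h
    · rw [h] at h1
      exact absurd h1 (zero_notMem_PS hk)
    · exact h
  · intro S _ S' _ h
    exact Finset.geomSum_injective (by norm_num) h

end Pool.Agent.Helper67.ET
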