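import Pool.Agent.Lib.Helper67.ET.Asym
import Pool.Agent.Lib.Helper67.ET.Example

set_option autoImplicit false

/-!
# The density threshold for unbounded representations among sets of linear factor complexity

Among the sets `A` whose indicator sequence has linear factor complexity, `g` forces unbounded
representations exactly when `√N / g(N)` is not `O((log N) ^ k)` for any `k`.
-/

namespace Pool.Agent.Helper67.ET.LinearComplexityThreshold

open Filter Pool.Agent.Helper67.ET

/-- The number of distinct patterns `A ∩ [t, t + n)`, `t = 0, 1, 2, …`, up to translation: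
the factor complexity of the indicator sequence of `A`. -/
noncomputable def patternCount (A : Set ℕ) (n : ℕ) : ℕ :=
  Set.ncard {W : Set ℕ | ∃ t : ℕ, W = {i : ℕ | i < n ∧ t + i ∈ A}}

/-- `A` has linear factor complexity. -/
def LinearComplexity (A : Set ℕ) : Prop :=
  ∃ K : ℕ, ∀ n : ℕ, 1 ≤ n → patternCount A n ≤ K * n

/-- `g` forces unbounded representations among the sets of linear factor complexity. -/
def Forces (g : ℕ → ℝ) : Prop :=
  ∀ A : Set ℕ, LinearComplexity A →
    (∃ c : ℝ, 0 < c ∧ ∀ᶠ N : ℕ in atTop,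
      c * (Real.sqrt (N : ℝ) / g N) ≤ ((A ∩ Set.Icc 1 N).ncard : ℝ)) →
    ∀ M : ℕ, ∃ n : ℕ, M < {p : ℕ × ℕ | p.1 ∈ A ∧ p.2 ∈ A ∧ p.1 + p.2 = n}.ncard

theorem result (g : ℕ → ℝ) :
    Forces g ↔ ∀ k : ℕ, ¬ ∃ C : ℝ, ∀ᶠ N : ℕ in atTop,
      Real.sqrt (N : ℝ) / g N ≤ C * (Real.log (N : ℝ)) ^ k := by
  classical
  constructor
  · -- the sets of sums of `k + 1` distinct powers of `4`
    rintro hF k ⟨C, hC⟩
    have hgrow : ∃ c : ℝ, 0 < c ∧ ∀ᶠ N : ℕ in atTop,
        c * (Real.sqrt (N : ℝ) / g N) ≤ ((PS (k + 1) ∩ Set.Icc 1 N).ncard : ℝ) := by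
      set C' : ℝ := max C 1 with hC'
      have hC'1 : 1 ≤ C' := le_max_right _ _
      -- `(log N) ^ k ≤ (log N) ^ (k + 1) ≤ D * count`
      set D : ℝ := 4 ^ (k + 1) * (k + 1).factorial with hD
      have hDpos : 0 < D := by rw [hD]; positivity
      refine ⟨1 / (C' * D), by positivity, ?_⟩
      filter_upwards [hC, eventually_ge_atTop (4 ^ (2 * k + 4))] with N h1 h2
      have hN1 : 1 ≤ N := le_trans (Nat.one_le_pow _ _ (by norm_num)) h2
      set m : ℕ := Nat.log 4 N with hm
      have hm1 : 4 ^ m ≤ N := Nat.pow_log_le_self 4 (by omega)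
      have hm2 : N < 4 ^ (m + 1) := Nat.lt_pow_succ_log_self (by norm_num) N
      have hmk : 2 * k + 4 ≤ m := by
        rw [hm]
        exact (Nat.le_log_iff_pow_le (by norm_num) (by omega)).mpr h2
      have hlog : Real.log N ≤ 2 * (m + 1) := by
        have h3 : Real.log N ≤ Real.log ((4 : ℝ) ^ (m + 1)) := by
          apply Real.log_le_log (by exact_mod_cast hN1)
          exact_mod_cast hm2.le
        rw [Real.log_pow] at h3
        have h4 : Real.log 4 ≤ 2 := by
          have : Real.log 4 = 2 * Real.log 2 := by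
            rw [show (4 : ℝ) = 2 ^ 2 by norm_num, Real.log_pow]; norm_num
          have h5 := Real.log_two_lt_d9
          linarith
        push_cast at h3
        have h5 : (0 : ℝ) ≤ m := Nat.cast_nonneg m
        nlinarith
      have hlog1 : 1 ≤ Real.log N := by
        have h3 : Real.log 4 ≤ Real.log N := by
          apply Real.log_le_log (by norm_num)
          have : 4 ^ 1 ≤ N := le_trans (Nat.pow_le_pow_right (by norm_num) (by omega)) h2
          exact_mod_cast this
        have : Real.log 4 = 2 * Real.log 2 := by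
          rw [show (4 : ℝ) = 2 ^ 2 by norm_num, Real.log_pow]; norm_num
        have h5 := Real.log_two_gt_d9
        linarith
      have hcount : ((m.choose (k + 1) : ℕ) : ℝ) ≤ ((PS (k + 1) ∩ Set.Icc 1 N).ncard : ℝ) := by
        exact_mod_cast choose_le_count (by omega) hm1
      have hch := Nat.pow_le_choose (α := ℝ) (k + 1) m
      -- `log N ≤ 4 (m + 1 - (k + 1))`
      have h6 : Real.log N ≤ 4 * ((m + 1 - (k + 1) : ℕ) : ℝ) := by
        have h7 : m + 1 ≤ 2 * (m + 1 - (k + 1)) := by omega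
        have h8 : ((m : ℝ) + 1) ≤ 2 * ((m + 1 - (k + 1) : ℕ) : ℝ) := by exact_mod_cast h7
        linarith
      have h7 : (Real.log N) ^ (k + 1) ≤ D * ((PS (k + 1) ∩ Set.Icc 1 N).ncard : ℝ) := by
        calc (Real.log N) ^ (k + 1) ≤ (4 * ((m + 1 - (k + 1) : ℕ) : ℝ)) ^ (k + 1) :=
              pow_le_pow_left₀ (by linarith) h6 _
          _ = D * (((m + 1 - (k + 1) : ℕ) : ℝ) ^ (k + 1) / ((k + 1).factorial : ℝ)) := by
              rw [hD, mul_pow]
              field_simp
          _ ≤ D * ((PS (k + 1) ∩ Set.Icc 1 N).ncard : ℝ) := by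
              apply mul_le_mul_of_nonneg_left _ hDpos.le
              refine le_trans ?_ hcount
              push_cast at hch ⊢
              exact hch
      have h8 : (Real.log N) ^ k ≤ (Real.log N) ^ (k + 1) :=
        pow_le_pow_right₀ hlog1 (by omega)
      have h9 : Real.sqrt N / g N ≤ C' * (D * ((PS (k + 1) ∩ Set.Icc 1 N).ncard : ℝ)) := by
        have h10 : (0 : ℝ) ≤ (Real.log N) ^ k := by positivity
        calc Real.sqrt N / g N ≤ C * (Real.log N) ^ k := h1
          _ ≤ C' * (Real.log N) ^ k := mul_le_mul_of_nonneg_right (le_max_left _ _) h10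
          _ ≤ C' * (D * ((PS (k + 1) ∩ Set.Icc 1 N).ncard : ℝ)) :=
              mul_le_mul_of_nonneg_left (h8.trans h7) (by linarith)
      rw [one_div, inv_mul_le_iff₀ (by positivity)]
      linarith
    obtain ⟨n, hn⟩ := hF (PS (k + 1)) ⟨4 * (k + 1 + 2) ^ 2, fun n hn => cx_PS (k + 1) n hn⟩ hgrow
      (2 ^ (k + 1 + (k + 1)))
    exact absurd (reps_le n (k + 1) (k + 1)) (by omega)
  · -- the cube lemma
    rintro hk A ⟨K, hK⟩ ⟨c, hc, hA⟩ M
    by_contra hcon
    push Not at hcon
    set e : ℕ := Nat.log 2 M + 1 with he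
    have hno : ∀ (a : ℕ) (ds : List ℕ), ds.length = e → Proper ds → ¬ CubeIn A ds a := by
      intro a ds hl hp hcube
      have h1 := ordered_reps hp hcube
      rw [hl] at h1
      have h2 := hcon (a + a + ds.sum)
      have h3 : M < 2 ^ e := Nat.lt_pow_succ_log_self (by norm_num) M
      omega
    have hbound : ∀ N : ℕ, (A ∩ Set.Icc 1 N).ncard ≤
        ((Nat.log 2 (N + 1) + 1) * (5 * K + 9)) ^ e := by
      intro N
      by_contra hlt
      push Not at hlt
      have h1 : (A ∩ Set.Icc 1 N).ncard ≤ (A ∩ Set.Iio (N + 1)).ncard := by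
        apply Set.ncard_le_ncard _ ((Set.finite_Iio _).inter_of_right _)
        rintro x ⟨hx1, hx2, hx3⟩
        exact ⟨hx1, Nat.lt_succ_of_le hx3⟩
      obtain ⟨a, ds, h3, h4, h5⟩ := exists_cube (A := A) (N := N + 1) (K := K) (M := e)
        (fun n hn1 _ => hK (5 * n) (by omega)) (hlt.le.trans h1)
      exact hno a ds h3 h4 h5
    -- contradiction with `hk e`
    apply hk e
    refine ⟨(1 / c) * (10 * (5 * K + 9)) ^ e, ?_⟩
    filter_upwards [hA, eventually_ge_atTop 3] with N h1 h2
    have hNR : (3 : ℝ) ≤ N := by exact_mod_cast h2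
    have hlog1 : 1 / 2 ≤ Real.log N := by
      have h3 : Real.log 2 ≤ Real.log N := Real.log_le_log (by norm_num) (by linarith)
      have h5 := Real.log_two_gt_d9
      linarith
    have hlog2 : ((Nat.log 2 (N + 1) : ℕ) : ℝ) + 1 ≤ 10 * Real.log N := by
      have h3 := Real.natLog_le_logb (N + 1) 2
      have h4 : Real.logb (2 : ℕ) ((N + 1 : ℕ) : ℝ) = Real.log ((N : ℝ) + 1) / Real.log 2 := by
        simp [Real.logb]
      rw [h4] at h3
      have h5 := Real.log_two_gt_d9
      have h6 : Real.log ((N : ℝ) + 1) ≤ 2 * Real.log N := by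
        have h7 : Real.log ((N : ℝ) + 1) ≤ Real.log ((N : ℝ) ^ 2) :=
          Real.log_le_log (by linarith) (by nlinarith)
        rwa [Real.log_pow] at h7
      have h7 : Real.log ((N : ℝ) + 1) / Real.log 2 ≤ 4 * Real.log N := by
        rw [div_le_iff₀ (by linarith)]
        nlinarith
      linarith
    have h3 : ((A ∩ Set.Icc 1 N).ncard : ℝ) ≤ (10 * (5 * K + 9)) ^ e * (Real.log N) ^ e := by
      have h4 : ((A ∩ Set.Icc 1 N).ncard : ℝ) ≤
          ((((Nat.log 2 (N + 1) + 1) * (5 * K + 9)) ^ e : ℕ) : ℝ) := by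
        exact_mod_cast hbound N
      refine h4.trans ?_
      push_cast
      rw [← mul_pow]
      apply pow_le_pow_left₀ (by positivity)
      have h5 : (0 : ℝ) ≤ 5 * K + 9 := by positivity
      nlinarith
    have h4 : Real.sqrt N / g N ≤ (1 / c) * ((A ∩ Set.Icc 1 N).ncard : ℝ) := by
      rw [one_div, ← div_eq_inv_mul, le_div_iff₀ hc]
      linarith
    calc Real.sqrt N / g N ≤ (1 / c) * ((A ∩ Set.Icc 1 N).ncard : ℝ) := h4
      _ ≤ (1 / c) * ((10 * (5 * K + 9)) ^ e * (Real.log N) ^ e) :=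
          mul_le_mul_of_nonneg_left h3 (by positivity)
      _ = (1 / c) * (10 * (5 * K + 9)) ^ e * (Real.log N) ^ e := by ring

end Pool.Agent.Helper67.ET.LinearComplexityThreshold
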