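import Pool.Agent.Lib.Helper67.ET.Asym

set_option autoImplicit false

/-!
# The Erdős–Turán conjecture for finite unions of sets of factor complexity `n ^ (1 + o(1))`

Let `A` be an asymptotic basis of some order `g`.  If all but `o(N ^ (1 / g))` of the elements of
`A` below `N` lie in the union of finitely many subsets of `A` whose indicator sequences have
factor complexity `n ^ (1 + o(1))`, then `r_{A,h}` is unbounded for every `h ≥ 2`.
-/

namespace Pool.Agent.Helper67.ET.LowComplexityUnions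

open Filter Pool.Agent.Helper67.ET

/-- The number of distinct patterns `A ∩ [t, t + n)`, `t = 0, 1, 2, …`, up to translation:
the factor complexity of the indicator sequence of `A`. -/
noncomputable def patternCount (A : Set ℕ) (n : ℕ) : ℕ :=
  Set.ncard {W : Set ℕ | ∃ t : ℕ, W = {i : ℕ | i < n ∧ t + i ∈ A}}

/-- The factor complexity of `A` is `n ^ (1 + o(1))`. -/
def NearlyLinear (A : Set ℕ) : Prop :=
  ∀ ε : ℝ, 0 < ε → ∀ᶠ n : ℕ in atTop, (patternCount A n : ℝ) ≤ (n : ℝ) ^ (1 + ε)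

theorem result (h : ℕ) (hh : 2 ≤ h) (A : Set ℕ) (g : ℕ)
    (hA : ∃ N : ℕ, ∀ n : ℕ, N ≤ n →
      ∃ s : Multiset ℕ, Multiset.card s = g ∧ (∀ a ∈ s, a ∈ A) ∧ s.sum = n)
    (k : ℕ) (B : Fin k → Set ℕ) (hBA : ∀ i, B i ⊆ A) (hB : ∀ i, NearlyLinear (B i))
    (hE : (fun N : ℕ => (((A \ ⋃ i, B i) ∩ Set.Iio N).ncard : ℝ)) =o[atTop]
      fun N : ℕ => (N : ℝ) ^ (1 / (g : ℝ))) :
    ∀ M : ℕ, ∃ n : ℕ,
      M < Set.ncard {s : Multiset ℕ | Multiset.card s = h ∧ (∀ a ∈ s, a ∈ A) ∧ s.sum = n} := by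
  classical
  intro M
  by_contra hcon
  push Not at hcon
  obtain ⟨N0, hg⟩ := hA
  have hg1 : 1 ≤ g := by
    by_contra hlt
    have hg0 : g = 0 := by omega
    obtain ⟨s, hs1, _, hs3⟩ := hg (N0 + 1) (by omega)
    rw [hg0, Multiset.card_eq_zero] at hs1
    rw [hs1] at hs3
    simp at hs3
  have hgR : (0 : ℝ) < g := by exact_mod_cast hg1
  have hbd : ∀ i, ∀ n, Set.ncard {s : Multiset ℕ | Multiset.card s = h ∧
      (∀ a ∈ s, a ∈ B i) ∧ s.sum = n} ≤ M := by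
    intro i n
    refine (Set.ncard_le_ncard ?_ (finite_reps A h n)).trans (hcon n)
    rintro s ⟨h1, h2, h3⟩
    exact ⟨h1, fun a ha => hBA i (h2 a ha), h3⟩
  set δ : ℝ := 1 / (2 * g) with hδ
  have hδ0 : 0 < δ := by rw [hδ]; positivity
  set ε' : ℝ := δ / (2 * (M + 1)) with hε'
  have hε'0 : 0 < ε' := by rw [hε']; positivity
  have hMe : ((M + 1 : ℕ) : ℝ) * ε' < δ := by
    rw [hε']
    push_cast
    have : ((M : ℝ) + 1) * (δ / (2 * (M + 1))) = δ / 2 := by field_simp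
    rw [this]; linarith
  have hpiece : ∀ i, ∀ᶠ N : ℕ in atTop, ((B i ∩ Set.Iio N).ncard : ℝ) < (N : ℝ) ^ δ := by
    intro i
    have h1 := count_lt_of_no_cube (no_cube_of_bounded hh (hbd i)) (c := 5 ^ ε' + 1) hε'0.le hMe
    have h2 := scale_of_eventually (A := B i) (ε := ε' / 2) (ε' := ε') (by positivity)
      (by linarith) (hB i (ε' / 2) (by positivity))
    have h3 : Tendsto (fun N : ℕ => 5 * N) atTop atTop :=
      tendsto_id.const_mul_atTop' (by norm_num)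
    filter_upwards [h1, h3.eventually h2, eventually_ge_atTop 1] with N h4 h5 h6
    have hN1 : (1 : ℝ) ≤ N := by exact_mod_cast h6
    apply h4 ⌈((5 * N : ℕ) : ℝ) ^ ε'⌉₊
    · have h7 : ((⌈((5 * N : ℕ) : ℝ) ^ ε'⌉₊ : ℕ) : ℝ) < ((5 * N : ℕ) : ℝ) ^ ε' + 1 :=
        Nat.ceil_lt_add_one (by positivity)
      have h8 : ((5 * N : ℕ) : ℝ) ^ ε' = 5 ^ ε' * (N : ℝ) ^ ε' := by
        push_cast
        rw [Real.mul_rpow (by norm_num) (by positivity)]
      rw [h8] at h7 ⊢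
      have h9 : (1 : ℝ) ≤ (N : ℝ) ^ ε' := Real.one_le_rpow hN1 hε'0.le
      nlinarith
    · intro n hn1 hn2
      have h7 := h5 n hn1 hn2
      have h8 : ((5 * N : ℕ) : ℝ) ^ ε' ≤ ⌈((5 * N : ℕ) : ℝ) ^ ε'⌉₊ := Nat.le_ceil _
      have h9 : (cx (B i) n : ℝ) ≤ (⌈((5 * N : ℕ) : ℝ) ^ ε'⌉₊ : ℝ) * n := by
        have : (0 : ℝ) ≤ n := Nat.cast_nonneg n
        nlinarith
      exact_mod_cast h9
  have hall := eventually_all.mpr hpiece
  -- the count of `A`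
  have hEq : ∀ᶠ N : ℕ in atTop,
      (((A \ ⋃ i, B i) ∩ Set.Iio N).ncard : ℝ) ≤ (1 / 4) * (N : ℝ) ^ (1 / (g : ℝ)) := by
    filter_upwards [hE.def (c := 1 / 4) (by norm_num)] with N hN
    rwa [Real.norm_of_nonneg (Nat.cast_nonneg _),
      Real.norm_of_nonneg (by positivity)] at hN
  have hcount : ∀ᶠ N : ℕ in atTop, ((A ∩ Set.Iio N).ncard : ℝ) ≤
      (1 / 4) * (N : ℝ) ^ (1 / (g : ℝ)) + k * (N : ℝ) ^ δ := by
    filter_upwards [hall, hEq] with N hN hN2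
    have h1 : A ∩ Set.Iio N ⊆ ((A \ ⋃ i, B i) ∩ Set.Iio N) ∪
        ⋃ i ∈ (Finset.univ : Finset (Fin k)), (B i ∩ Set.Iio N) := by
      rintro x ⟨hx1, hx2⟩
      by_cases hx3 : x ∈ ⋃ i, B i
      · right
        obtain ⟨i, hi⟩ := Set.mem_iUnion.mp hx3
        simp only [Finset.mem_univ, Set.iUnion_true, Set.mem_iUnion]
        exact ⟨i, hi, hx2⟩
      · left
        exact ⟨⟨hx1, hx3⟩, hx2⟩
    have h2 : (⋃ i ∈ (Finset.univ : Finset (Fin k)), (B i ∩ Set.Iio N)).ncard ≤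
        ∑ i : Fin k, (B i ∩ Set.Iio N).ncard := Finset.set_ncard_biUnion_le _ _
    have hfin : (((A \ ⋃ i, B i) ∩ Set.Iio N) ∪
        ⋃ i ∈ (Finset.univ : Finset (Fin k)), (B i ∩ Set.Iio N)).Finite := by
      apply (Set.finite_Iio N).subset
      intro x hx
      rcases hx with hx | hx
      · exact hx.2
      · simp only [Finset.mem_univ, Set.iUnion_true, Set.mem_iUnion] at hx
        obtain ⟨i, hi⟩ := hx
        exact hi.2
    have h3 := (Set.ncard_le_ncard h1 hfin).trans (Set.ncard_union_le _ _)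
    have h4 : ((A ∩ Set.Iio N).ncard : ℝ) ≤ (((A \ ⋃ i, B i) ∩ Set.Iio N).ncard : ℝ) +
        ∑ i : Fin k, ((B i ∩ Set.Iio N).ncard : ℝ) := by
      have h5 := h3.trans (Nat.add_le_add_left h2 _)
      calc ((A ∩ Set.Iio N).ncard : ℝ) ≤ ((((A \ ⋃ i, B i) ∩ Set.Iio N).ncard +
            ∑ i : Fin k, (B i ∩ Set.Iio N).ncard : ℕ) : ℝ) := by exact_mod_cast h5
        _ = _ := by push_cast; rfl
    have h5 : ∑ i : Fin k, ((B i ∩ Set.Iio N).ncard : ℝ) ≤ k * (N : ℝ) ^ δ := by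
      calc ∑ i : Fin k, ((B i ∩ Set.Iio N).ncard : ℝ) ≤ ∑ i : Fin k, (N : ℝ) ^ δ :=
            Finset.sum_le_sum (fun i _ => (hN i).le)
        _ = k * (N : ℝ) ^ δ := by simp
    linarith
  have hbig : ∀ᶠ N : ℕ in atTop, k * (N : ℝ) ^ δ ≤ (1 / 4) * (N : ℝ) ^ (1 / (g : ℝ)) := by
    have h1 : ∀ᶠ x : ℝ in atTop, 4 * (k : ℝ) ≤ x ^ δ :=
      (tendsto_rpow_atTop hδ0).eventually_ge_atTop _
    filter_upwards [tendsto_natCast_atTop_atTop.eventually h1, eventually_ge_atTop 1] with N h2 h3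
    have h4 : (1 : ℝ) ≤ N := by exact_mod_cast h3
    have h5 : (N : ℝ) ^ (1 / (g : ℝ)) = (N : ℝ) ^ δ * (N : ℝ) ^ δ := by
      rw [← Real.rpow_add (by linarith)]
      congr 1
      rw [hδ]; field_simp; norm_num
    rw [h5]
    have h6 : (0 : ℝ) ≤ (N : ℝ) ^ δ := by positivity
    nlinarith
  obtain ⟨N, h1, h2, h3⟩ := (hcount.and (hbig.and (eventually_ge_atTop (2 * N0 + 1)))).exists
  have hN1 : (1 : ℝ) ≤ N := by exact_mod_cast (show 1 ≤ N by omega)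
  have h4 : (N : ℝ) ≤ N0 + ((A ∩ Set.Iio N).ncard : ℝ) ^ g := by
    exact_mod_cast basis_count hg N
  have h5 : ((A ∩ Set.Iio N).ncard : ℝ) ^ g ≤ ((1 / 2) * (N : ℝ) ^ (1 / (g : ℝ))) ^ g :=
    pow_le_pow_left₀ (Nat.cast_nonneg _) (by linarith) g
  have h6 : ((1 / 2) * (N : ℝ) ^ (1 / (g : ℝ))) ^ g ≤ (1 / 2) * (N : ℝ) := by
    have h7 : ((N : ℝ) ^ (1 / (g : ℝ))) ^ g = (N : ℝ) := by
      rw [← Real.rpow_natCast, ← Real.rpow_mul (by linarith)]
      rw [one_div, inv_mul_cancel₀ (by positivity), Real.rpow_one]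
    rw [mul_pow, h7]
    apply mul_le_mul_of_nonneg_right _ (by linarith)
    calc (1 / 2 : ℝ) ^ g ≤ (1 / 2 : ℝ) ^ 1 :=
          pow_le_pow_of_le_one (by norm_num) (by norm_num) hg1
      _ = 1 / 2 := by norm_num
  have h7 : (2 * (N0 : ℝ) + 1) ≤ N := by exact_mod_cast h3
  linarith

end Pool.Agent.Helper67.ET.LowComplexityUnions
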